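import Mathlib
import Pool.Agent.Y755.FK.Stm

/-! Project FK (helper755), job FAC: the factorization identity. -/

set_option autoImplicit false
set_option linter.unusedVariables false

open Finset MeasureTheory Filter

open scoped Classical

namespace Pool.Agent.Y780.FK

open Pool.Agent.Y755.FK

noncomputable section

theorem J_one_left (n : ℕ) : J 1 n = 1 := by
  unfold J
  rw [jacobiSym.one_left]
  norm_num

theorem J_one_right (a : ℤ) : J a 1 = 1 := by
  unfold J
  rw [jacobiSym.one_right]
  norm_num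

theorem om_one : om 1 = 0 := by simp [om]

theorem div_eq_one {m a : ℕ} (hm : 1 ≤ m) (ha : a ∣ m) : m / a = 1 ↔ a = m := by
  constructor
  · intro h
    have := Nat.div_mul_cancel ha
    rw [h, one_mul] at this
    exact this
  · rintro rfl
    exact Nat.div_self hm

theorem hh_eq (e f : ℤ) {m : ℕ} (hm : 1 ≤ m) :
    hh e f m = cc e f m + nt e f - (if m = 1 then bt e f else 0) := by
  have key : ∀ a ∈ m.divisors, J e a * J f (m / a) * J a (m / a) =
      (if ¬ (a = 1 ∧ f = 1) ∧ ¬ (m / a = 1 ∧ e = 1) then J e a * J f (m / a) * J a (m / a) else 0) +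
      (if a = 1 then (if f = 1 then 1 else 0) else 0) + (if a = m then (if e = 1 then 1 else 0) else 0) -
      (if a = 1 then (if m = 1 then bt e f else 0) else 0) := by
    intro a ha
    have ha' : a ∣ m := Nat.dvd_of_mem_divisors ha
    have h1 := div_eq_one hm ha'
    by_cases ham : a = m
    · subst ham
      have h2 : a / a = 1 := Nat.div_self hm
      by_cases ha1 : a = 1
      · subst ha1
        by_cases he : e = 1 <;> by_cases hf : f = 1 <;> simp [he, hf, bt, J_one_right]
      · by_cases he : e = 1 <;> simp [he, ha1, h2, J_one_left, J_one_right]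
    · have h2 : ¬ m / a = 1 := fun h => ham (h1.1 h)
      by_cases ha1 : a = 1
      · subst ha1
        have hm1 : ¬ m = 1 := fun h => ham h.symm
        by_cases hf : f = 1 <;> simp [hf, ham, hm1, J_one_left, J_one_right]
      · simp [ha1, ham, h2]
  unfold hh cc
  rw [Finset.sum_congr rfl key, Finset.sum_sub_distrib, Finset.sum_add_distrib, Finset.sum_add_distrib,
    ← Finset.sum_filter, Finset.sum_ite_eq', Finset.sum_ite_eq', Finset.sum_ite_eq',
    if_pos (Nat.one_mem_divisors.2 (by omega)), if_pos (Nat.mem_divisors_self m (by omega)),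
    if_pos (Nat.one_mem_divisors.2 (by omega))]
  unfold nt
  ring

theorem card_div {n : ℕ} (hn : Squarefree n) : n.divisors.card = 2 ^ om n := by
  rw [Nat.card_divisors hn.ne_zero, om, ← Finset.prod_const]
  refine Finset.prod_congr rfl fun p hp => ?_
  rw [Nat.factorization_eq_one_of_squarefree hn (Nat.prime_of_mem_primeFactors hp)
    (Nat.dvd_of_mem_primeFactors hp)]

theorem g4_eq (e f e' f' : ℤ) {n : ℕ} (hn : osf n) : g4 e f e' f' n = nt e f * nt e' f' +
    nt e f * ((1 / 2 : ℝ) ^ om n * ∑ m ∈ n.divisors, cc e' f' m) - nt e f * bt e' f' * (1 / 2 : ℝ) ^ om n +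
    nt e' f' * ((1 / 2 : ℝ) ^ om n * ∑ m ∈ n.divisors, cc e f m) - nt e' f' * bt e f * (1 / 2 : ℝ) ^ om n +
    rr e f e' f' n - bt e f * r1 e' f' n - bt e' f' * r1 e f n +
    (if n = 1 then bt e f * bt e' f' else 0) := by
  have hn0 : n ≠ 0 := hn.2.ne_zero
  have hn1 : 1 ≤ n := Nat.one_le_iff_ne_zero.2 hn0
  have key : ∀ m ∈ n.divisors, hh e f m * hh e' f' (n / m) =
      cc e f m * cc e' f' (n / m) + nt e' f' * cc e f m + nt e f * cc e' f' (n / m) +
      nt e f * nt e' f' - (if m = n then bt e' f' * cc e f m + nt e f * bt e' f' else 0) -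
      (if m = 1 then bt e f * cc e' f' (n / m) + nt e' f' * bt e f -
        (if n = 1 then bt e f * bt e' f' else 0) else 0) := by
    intro m hm
    have hm' : m ∣ n := Nat.dvd_of_mem_divisors hm
    have hm1 : 1 ≤ m := Nat.pos_of_mem_divisors hm
    have h1 := div_eq_one hn1 hm'
    rw [hh_eq e f hm1, hh_eq e' f' (Nat.div_pos (Nat.le_of_dvd hn1 hm') hm1)]
    by_cases hmn : m = n
    · have h2 : n / m = 1 := h1.2 hmn
      rw [if_pos h2, if_pos hmn]
      by_cases h3 : m = 1
      · rw [if_pos h3, if_pos h3, if_pos (by omega)]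
        ring
      · rw [if_neg h3, if_neg h3]
        ring
    · have h2 : ¬ n / m = 1 := fun h => hmn (h1.1 h)
      rw [if_neg h2, if_neg hmn]
      by_cases h3 : m = 1
      · rw [if_pos h3, if_pos h3, if_neg (by omega)]
        ring
      · rw [if_neg h3, if_neg h3]
        ring
  unfold g4 rr r1
  rw [if_pos hn, if_pos hn, if_pos hn, Finset.sum_congr rfl key, Finset.sum_sub_distrib, Finset.sum_sub_distrib,
    Finset.sum_add_distrib, Finset.sum_add_distrib, Finset.sum_add_distrib, Finset.sum_ite_eq',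
    Finset.sum_ite_eq', if_pos (Nat.mem_divisors_self n hn0), if_pos (Nat.one_mem_divisors.2 hn0),
    ← Finset.mul_sum, ← Finset.mul_sum, Finset.sum_const, card_div hn.2, Nat.div_one,
    Nat.sum_div_divisors n (fun m => cc e' f' m), nsmul_eq_mul]
  have h2 : (1 / 2 : ℝ) ^ om n * ((2 ^ om n : ℕ) : ℝ) = 1 := by
    push_cast
    rw [← mul_pow]
    norm_num
  have h3 : (1 / 2 : ℝ) ^ om n * (if n = 1 then bt e f * bt e' f' else 0) =
      if n = 1 then bt e f * bt e' f' else 0 := by
    by_cases h : n = 1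
    · rw [if_pos h, h, om_one]
      ring
    · rw [if_neg h, mul_zero]
  linear_combination (nt e f * nt e' f') * h2 + h3

/-- the terms of the singular series -/
def w (x : ℝ) (n : ℕ) : ℝ := if osf n then (1 / 2 : ℝ) ^ om n * (n : ℝ) ^ (-(1 + x)) else 0

theorem w_nonneg (x : ℝ) (n : ℕ) : 0 ≤ w x n := by
  unfold w
  split_ifs
  · positivity
  · exact le_rfl

theorem not_osf_zero : ¬ osf 0 := fun h => h.2.ne_zero rfl

theorem osf_mul {p k : ℕ} (hp : p.Prime) (h2 : p ≠ 2) (hk : ¬ p ∣ k) : osf (p * k) ↔ osf k := by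
  unfold osf
  rw [Nat.odd_mul, Nat.squarefree_mul ((Nat.Prime.coprime_iff_not_dvd hp).2 hk)]
  have h3 := hp.odd_of_ne_two h2
  have h4 : Squarefree p := hp.prime.squarefree
  tauto

theorem pf_mul {p k : ℕ} (hp : p.Prime) (hk0 : k ≠ 0) :
    (p * k).primeFactors = insert p k.primeFactors := by
  rw [Nat.primeFactors_mul hp.ne_zero hk0, hp.primeFactors]
  rfl

theorem om_mul {p k : ℕ} (hp : p.Prime) (hk0 : k ≠ 0) (hk : ¬ p ∣ k) : om (p * k) = om k + 1 := by
  unfold om
  rw [pf_mul hp hk0, Finset.card_insert_of_notMem]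
  intro h
  exact hk (Nat.dvd_of_mem_primeFactors h)

theorem w_mul {x : ℝ} {p : ℕ} (hp : p.Prime) (h2 : p ≠ 2) (k : ℕ) :
    w x (p * k) = if p ∣ k then 0 else (1 / 2 * (p : ℝ) ^ (-(1 + x))) * w x k := by
  by_cases hk : p ∣ k
  · rw [if_pos hk]
    unfold w
    rw [if_neg]
    intro h
    obtain ⟨l, rfl⟩ := hk
    have h3 := h.2 p ⟨l, by ring⟩
    exact hp.one_lt.ne' (Nat.isUnit_iff.1 h3)
  · rw [if_neg hk]
    unfold w
    rw [osf_mul hp h2 hk]
    by_cases ho : osf k
    · rw [if_pos ho, if_pos ho, om_mul hp ho.2.ne_zero hk, Nat.cast_mul,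
        Real.mul_rpow (Nat.cast_nonneg _) (Nat.cast_nonneg _), pow_succ]
      ring
    · rw [if_neg ho, if_neg ho, mul_zero]

theorem sum_if {x : ℝ} (hw : Summable (w x)) (m : ℕ) : Summable fun n => if m ∣ n then w x n else 0 := by
  refine Summable.of_nonneg_of_le (fun n => ?_) (fun n => ?_) hw
  · split_ifs
    · exact w_nonneg x n
    · exact le_rfl
  · split_ifs
    · exact le_rfl
    · exact w_nonneg x n

theorem step {x : ℝ} (hw : Summable (w x)) {p m : ℕ} (hp : p.Prime) (h2 : p ≠ 2) (hm : ¬ p ∣ m) :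
    (∑' n, if p * m ∣ n then w x n else 0) = (2 * (p : ℝ) ^ (1 + x) + 1)⁻¹ * ∑' n, if m ∣ n then w x n else 0 := by
  set q : ℝ := 1 / 2 * (p : ℝ) ^ (-(1 + x)) with hq
  have hp0 : (0 : ℝ) < p := by exact_mod_cast hp.pos
  have hcop : Nat.Coprime p m := (Nat.Prime.coprime_iff_not_dvd hp).2 hm
  have e1 : (∑' n, if p * m ∣ n then w x n else 0) = ∑' k, if m ∣ k then w x (p * k) else 0 := by
    have hinj : Function.Injective fun k : ℕ => p * k := fun a b h => Nat.eq_of_mul_eq_mul_left hp.pos h
    rw [← hinj.tsum_eq (f := fun n => if p * m ∣ n then w x n else 0)]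
    · refine tsum_congr fun k => ?_
      have : p * m ∣ p * k ↔ m ∣ k := Nat.mul_dvd_mul_iff_left hp.pos
      simp only [this]
    · intro n hn
      rw [Function.mem_support] at hn
      have h3 : p * m ∣ n := by
        by_contra h
        exact hn (if_neg h)
      obtain ⟨l, hl⟩ := h3
      exact ⟨m * l, by rw [hl]; ring⟩
  have e2 : (∑' k, if m ∣ k then w x (p * k) else 0) =
      q * ((∑' k, if m ∣ k then w x k else 0) - ∑' k, if p * m ∣ k then w x k else 0) := by
    rw [← (sum_if hw _).tsum_sub (sum_if hw _), ← tsum_mul_left]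
    refine tsum_congr fun k => ?_
    rw [w_mul hp h2]
    by_cases h3 : m ∣ k
    · rw [if_pos h3, if_pos h3]
      by_cases h4 : p ∣ k
      · rw [if_pos h4, if_pos (hcop.mul_dvd_of_dvd_of_dvd h4 h3), sub_self, mul_zero]
      · rw [if_neg h4, if_neg, sub_zero]
        intro h5
        exact h4 ((dvd_mul_right p m).trans h5)
    · rw [if_neg h3, if_neg h3, if_neg, sub_self, mul_zero]
      intro h5
      exact h3 ((dvd_mul_left m p).trans h5)
  rw [← e1] at e2
  have hq1 : q * (2 * (p : ℝ) ^ (1 + x)) = 1 := by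
    rw [hq, Real.rpow_neg hp0.le]
    field_simp
  have hpos : 0 < 2 * (p : ℝ) ^ (1 + x) + 1 := by positivity
  rw [eq_inv_mul_iff_mul_eq₀ hpos.ne']
  linear_combination (2 * (p : ℝ) ^ (1 + x)) * e2 + ((∑' k, if m ∣ k then w x k else 0) - ∑' k, if p * m ∣ k then w x k else 0) * hq1

theorem S_eq {x : ℝ} (hw : Summable (w x)) : ∀ m : ℕ, osf m →
    (∑' n, if m ∣ n then w x n else 0) = (∑' n, w x n) * fr x m := by
  intro m
  induction m using Nat.strong_induction_on with
  | _ m ih =>
    intro hm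
    by_cases h1 : m = 1
    · subst h1
      simp [fr]
    · set p := m.minFac with hp'
      have hp : p.Prime := Nat.minFac_prime h1
      obtain ⟨k, hk⟩ : p ∣ m := Nat.minFac_dvd m
      have hm0 : m ≠ 0 := hm.2.ne_zero
      have hk0 : k ≠ 0 := by
        rintro rfl
        exact hm0 (by rw [hk, mul_zero])
      have hpk : ¬ p ∣ k := by
        rintro ⟨l, hl⟩
        have h3 := hm.2 p ⟨l, by rw [hk, hl]; ring⟩
        exact hp.one_lt.ne' (Nat.isUnit_iff.1 h3)
      have hp2 : p ≠ 2 := by
        intro h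
        have h4 := hm.1
        rw [hk, h, Nat.odd_mul] at h4
        exact absurd h4.1 (by decide)
      have hko : osf k := by
        rw [hk] at hm
        exact (osf_mul hp hp2 hpk).1 hm
      have hlt : k < m := by
        rw [hk]
        exact lt_mul_of_one_lt_left (Nat.pos_of_ne_zero hk0) hp.one_lt
      have h5 := ih k hlt hko
      have h6 : fr x m = (2 * (p : ℝ) ^ (1 + x) + 1)⁻¹ * fr x k := by
        conv_lhs => rw [hk]
        unfold fr
        rw [pf_mul hp hk0, Finset.prod_insert fun h => hpk (Nat.dvd_of_mem_primeFactors h)]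
      rw [h6]
      have h7 := step hw hp hp2 hpk
      rw [← hk, h5] at h7
      rw [h7]
      ring

theorem S_zero {x : ℝ} {m : ℕ} (hm : ¬ osf m) (n : ℕ) : (if m ∣ n then w x n else 0) = 0 := by
  by_cases h : m ∣ n
  · rw [if_pos h]
    unfold w
    rw [if_neg]
    intro h1
    exact hm ⟨Odd.of_dvd_nat h1.1 h, h1.2.squarefree_of_dvd h⟩
  · rw [if_neg h]

theorem core {x : ℝ} (c : ℕ → ℝ) (hw : Summable (w x))
    (hc : Summable fun n => if osf n then |c n| * fr x n else 0) :
    (Summable fun n => w x n * ∑ m ∈ n.divisors, c m) ∧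
    ∑' n, w x n * ∑ m ∈ n.divisors, c m = (∑' n, w x n) * ∑' n, if osf n then c n * fr x n else 0 := by
  let F : ℕ × ℕ → ℝ := fun z => c z.1 * if z.1 ∣ z.2 then w x z.2 else 0
  have hF : Summable F := by
    rw [← summable_norm_iff]
    have hn : ∀ z : ℕ × ℕ, ‖F z‖ = |c z.1| * if z.1 ∣ z.2 then w x z.2 else 0 := by
      intro z
      change |c z.1 * _| = _
      rw [abs_mul]
      congr 1
      apply abs_of_nonneg
      split_ifs
      · exact w_nonneg x _
      · exact le_rfl
    have hn' : (fun z : ℕ × ℕ => ‖F z‖) = fun z : ℕ × ℕ => |c z.1| * if z.1 ∣ z.2 then w x z.2 else 0 := funext hn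
    rw [hn', summable_prod_of_nonneg]
    · constructor
      · intro m
        exact (sum_if hw m).mul_left |c m|
      · refine (hc.mul_left (∑' n, w x n)).congr fun m => ?_
        change _ = ∑' n, |c m| * if m ∣ n then w x n else 0
        rw [tsum_mul_left]
        by_cases hm : osf m
        · rw [if_pos hm, S_eq hw m hm]
          ring
        · rw [if_neg hm, tsum_congr (S_zero hm), tsum_zero, mul_zero, mul_zero]
    · intro z
      change 0 ≤ |c z.1| * if z.1 ∣ z.2 then w x z.2 else 0
      rw [← hn z]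
      exact norm_nonneg _
  have hrow : ∀ n, ∑' m, F (m, n) = w x n * ∑ m ∈ n.divisors, c m := by
    intro n
    change ∑' m, c m * (if m ∣ n then w x n else 0) = _
    by_cases h0 : n = 0
    · subst h0
      have h1 : w x 0 = 0 := by
        unfold w
        rw [if_neg not_osf_zero]
      simp [h1]
    · rw [tsum_eq_sum (s := n.divisors)]
      · rw [Finset.mul_sum]
        refine Finset.sum_congr rfl fun m hm => ?_
        rw [if_pos (Nat.dvd_of_mem_divisors hm), mul_comm]
      · intro m hm
        rw [if_neg, mul_zero]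
        intro h
        exact hm (Nat.mem_divisors.2 ⟨h, h0⟩)
  have hcol : ∀ m, ∑' n, F (m, n) = (∑' n, w x n) * if osf m then c m * fr x m else 0 := by
    intro m
    change ∑' n, c m * (if m ∣ n then w x n else 0) = _
    rw [tsum_mul_left]
    by_cases hm : osf m
    · rw [if_pos hm, S_eq hw m hm]
      ring
    · rw [if_neg hm, tsum_congr (S_zero hm), tsum_zero, mul_zero, mul_zero]
  have hG : Summable fun z : ℕ × ℕ => F (z.2, z.1) := hF.prod_symm
  constructor
  · have h1 := hG.prod
    exact h1.congr hrow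
  · have h1 : ∑' n, ∑' m, F (m, n) = ∑' m, ∑' n, F (m, n) := (Summable.tsum_comm hG).symm
    rw [tsum_congr hrow, tsum_congr hcol, tsum_mul_left] at h1
    exact h1

theorem DS_eq {c : ℕ → ℝ} {x : ℝ} : DS c x = ∑' k : ℕ, if k = 0 then 0 else c k * (k : ℝ) ^ (-(1 + x)) := rfl

theorem AC.summable {c : ℕ → ℝ} (h : AC c) {x : ℝ} (hx : 0 < x) :
    Summable fun k : ℕ => if k = 0 then 0 else c k * (k : ℝ) ^ (-(1 + x)) := by
  rw [← summable_abs_iff]
  refine (h x hx).congr fun k => ?_
  by_cases hk : k = 0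
  · rw [if_pos hk, if_pos hk, abs_zero]
  · rw [if_neg hk, if_neg hk, abs_mul, abs_of_nonneg (a := (k : ℝ) ^ (-(1 + x))) (by positivity)]

theorem t_FAC : S_ACA → S_FAC := by
  intro hA e f e' f' he hf he' hf' x hx
  obtain ⟨a1, a2, a3, a4, a5, a6, a7⟩ := hA e f e' f' he hf he' hf'
  obtain ⟨b1, b2, b3, b4, b5, b6, b7⟩ := hA e' f' e f he' hf' he hf
  have s1 := AC.summable a1 hx
  have sN := AC.summable a5 hx
  have sR := AC.summable a2 hx
  have sr := AC.summable a3 hx
  have sr' := AC.summable b3 hx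
  have hwe : ∀ k : ℕ, (if k = 0 then 0 else (if osf k then (1 / 2 : ℝ) ^ om k else 0) * (k : ℝ) ^ (-(1 + x))) =
      w x k := by
    intro k
    unfold w
    by_cases hk : k = 0
    · rw [if_pos hk, hk, if_neg not_osf_zero]
    · rw [if_neg hk]
      by_cases ho : osf k
      · rw [if_pos ho, if_pos ho]
      · rw [if_neg ho, if_neg ho, zero_mul]
  have hw : Summable (w x) := (AC.summable a6 hx).congr fun k => hwe k
  have hZ : ZZ x = ∑' n, w x n := by
    unfold ZZ
    rw [DS_eq]
    exact tsum_congr hwe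
  obtain ⟨c1s, c1e⟩ := core (fun n => cc e f n) hw (a7 x hx)
  obtain ⟨c2s, c2e⟩ := core (fun n => cc e' f' n) hw (b7 x hx)
  have hone : Summable fun k : ℕ => if k = 1 then (1 : ℝ) else 0 :=
    summable_of_ne_finset_zero (s := {1}) fun b hb => by
      rw [if_neg (by simpa using hb)]
  have tone : ∑' k : ℕ, (if k = 1 then (1 : ℝ) else 0) = 1 := tsum_ite_eq 1 _
  have key : ∀ k : ℕ, (if k = 0 then 0 else (if osf k then g4 e f e' f' k else 0) * (k : ℝ) ^ (-(1 + x))) =
      nt e f * nt e' f' * (if k = 0 then 0 else (if osf k then (1 : ℝ) else 0) * (k : ℝ) ^ (-(1 + x))) +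
      nt e f * (w x k * ∑ m ∈ k.divisors, cc e' f' m) + nt e' f' * (w x k * ∑ m ∈ k.divisors, cc e f m) +
      (-(nt e f * bt e' f') - nt e' f' * bt e f) * w x k +
      (if k = 0 then 0 else rr e f e' f' k * (k : ℝ) ^ (-(1 + x))) +
      (-bt e f) * (if k = 0 then 0 else r1 e' f' k * (k : ℝ) ^ (-(1 + x))) +
      (-bt e' f') * (if k = 0 then 0 else r1 e f k * (k : ℝ) ^ (-(1 + x))) +
      bt e f * bt e' f' * (if k = 1 then (1 : ℝ) else 0) := by
    intro k
    by_cases hk : k = 0
    · subst hk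
      simp [w, not_osf_zero]
    · by_cases ho : osf k
      · simp only [if_neg hk, if_pos ho, w]
        rw [g4_eq e f e' f' ho]
        have h3 : (if k = 1 then bt e f * bt e' f' else 0) * (k : ℝ) ^ (-(1 + x)) =
            bt e f * bt e' f' * (if k = 1 then (1 : ℝ) else 0) := by
          by_cases h : k = 1
          · rw [if_pos h, if_pos h, h, Nat.cast_one, Real.one_rpow]
          · rw [if_neg h, if_neg h, zero_mul, mul_zero]
        linear_combination h3
      · have h1 : k ≠ 1 := by
          rintro rfl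
          exact ho ⟨odd_one, squarefree_one⟩
        simp only [if_neg hk, if_neg ho, w, rr, r1, if_neg h1]
        ring
  have hAT : AT e f e' f' x = ∑' k : ℕ, if k = 0 then 0 else
      (if osf k then g4 e f e' f' k else 0) * (k : ℝ) ^ (-(1 + x)) := rfl
  have t1 := sN.mul_left (nt e f * nt e' f')
  have t2 := c2s.mul_left (nt e f)
  have t3 := c1s.mul_left (nt e' f')
  have t4 := hw.mul_left (-(nt e f * bt e' f') - nt e' f' * bt e f)
  have t6 := sr'.mul_left (-bt e f)
  have t7 := sr.mul_left (-bt e' f')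
  have t8 := hone.mul_left (bt e f * bt e' f')
  have t12 := t1.add t2
  have t13 := t12.add t3
  have t14 := t13.add t4
  have t15 := t14.add sR
  have t16 := t15.add t6
  have t17 := t16.add t7
  rw [hAT, tsum_congr key, t17.tsum_add t8, t16.tsum_add t7, t15.tsum_add t6, t14.tsum_add sR, t13.tsum_add t4,
    t12.tsum_add t3, t1.tsum_add t2, tsum_mul_left, tsum_mul_left, tsum_mul_left, tsum_mul_left, tsum_mul_left,
    tsum_mul_left, tsum_mul_left, tone, c1e, c2e, hZ]
  unfold HH NN
  rw [DS_eq, DS_eq, DS_eq, DS_eq]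
  ring

end

end Pool.Agent.Y780.FK
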